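import Mathlib

set_option autoImplicit false

namespace Pool.Agent.Results.MP_db54ba57_co.FixedRows

open Finset Filter Asymptotics

/-- An `m × n` 0-1 matrix, given by the set of positions of its 1-entries. -/
abbrev Mat (m n : ℕ) := Finset (Fin m × Fin n)

def Contains {m n k l : ℕ} (M : Mat m n) (P : Mat k l) : Prop :=
  ∃ (r : Fin k → Fin m) (c : Fin l → Fin n), StrictMono r ∧ StrictMono c ∧
    ∀ p ∈ P, (r p.1, c p.2) ∈ M

def Saturated {m n k l : ℕ} (M : Mat m n) (P : Mat k l) : Prop :=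
  ¬ Contains M P ∧ ∀ x ∉ M, Contains (insert x M) P

noncomputable def sat (m n : ℕ) {k l : ℕ} (P : Mat k l) : ℕ :=
  sInf {w | ∃ M : Mat m n, Saturated M P ∧ M.card = w}

/-- `Q` arises from `P` by inserting empty rows and columns strictly between the first and last. -/
def Inserted {k l k' l' : ℕ} (P : Mat (k + 1) (l + 1)) (Q : Mat (k' + 1) (l' + 1)) : Prop :=
  ∃ (r : Fin (k + 1) → Fin (k' + 1)) (c : Fin (l + 1) → Fin (l' + 1)), StrictMono r ∧
    StrictMono c ∧ r 0 = 0 ∧ c 0 = 0 ∧ r (Fin.last k) = Fin.last k' ∧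
    c (Fin.last l) = Fin.last l' ∧ Q = P.image fun p => (r p.1, c p.2)

theorem ext {m n k l : ℕ} (M : Mat m n) (P : Mat k l) (h : ¬ Contains M P) :
    ∃ N : Mat m n, M ⊆ N ∧ Saturated N P := by
  obtain ⟨N, h1, h2⟩ := Finite.exists_le_maximal (p := fun N : Mat m n => ¬ Contains N P) h
  refine ⟨N, h1, h2.1, fun x hx => ?_⟩
  by_contra k
  exact hx (h2.2 k (subset_insert _ _) (mem_insert_self _ _))

def P : Mat 2 5 := {(0, 0), (0, 2), (0, 3), (0, 4), (1, 0), (1, 1), (1, 2), (1, 4)}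
def Q : Mat 3 5 := {(0, 0), (0, 2), (0, 3), (0, 4), (2, 0), (2, 1), (2, 2), (2, 4)}

theorem low (n : ℕ) : n ≤ sat 3 n Q := by
  obtain ⟨N, -, hN⟩ := ext (∅ : Mat 3 n) Q fun ⟨r, c, _, _, h⟩ => by
    simpa using h (0, 0) (by decide)
  refine le_csInf ⟨_, N, hN, rfl⟩ ?_
  rintro _ ⟨M, hM, rfl⟩
  have : ∀ j, (1, j) ∈ M := fun j => by
    by_contra k
    obtain ⟨r, c, h1, h2, h3⟩ := hM.2 _ k
    refine hM.1 ⟨r, c, h1, h2, fun p hp => (mem_insert.1 (h3 p hp)).resolve_left fun e => ?_⟩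
    have a := h1 (show (0 : Fin 3) < 1 by decide)
    have b := h1 (show (1 : Fin 3) < 2 by decide)
    have e := congrArg Prod.fst e
    have : p.1 = 0 ∨ p.1 = 2 := by revert hp; generalize p = q; revert q; decide
    rcases this with t | t <;> rw [t] at e <;> simp only at e <;> omega
  simpa using card_le_card_of_injOn (s := univ) (t := M) (fun j : Fin n => (1, j))
    (fun j _ => this j) fun i _ j _ e => by simpa using e

def W (n : ℕ) : Mat 3 n := univ.filter fun x => let j := x.2.val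
  (x.1.val = 0 ∧ (j = 0 ∨ j = 2 ∨ j + 4 = n ∨ j + 3 = n ∨ j + 2 = n)) ∨
  (x.1.val = 1 ∧ (j = 2 ∨ j + 4 = n ∨ j + 2 = n ∨ j + 1 = n)) ∨
  (x.1.val = 2 ∧ (j = 0 ∨ j = 1 ∨ j = 2 ∨ j + 4 = n ∨ j + 1 = n))

theorem av (n : ℕ) (hn : 8 ≤ n) : ¬ Contains (W n) P := by
  rintro ⟨r, c, h1, h2, h3⟩
  have a : (r 0).val < r 1 := h1 (show (0 : Fin 2) < 1 by decide)
  have b0 : (c 0).val < c 1 := h2 (show (0 : Fin 5) < 1 by decide)
  have b1 : (c 1).val < c 2 := h2 (show (1 : Fin 5) < 2 by decide)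
  have b2 : (c 2).val < c 3 := h2 (show (2 : Fin 5) < 3 by decide)
  have b3 : (c 3).val < c 4 := h2 (show (3 : Fin 5) < 4 by decide)
  simp only [P, mem_insert, mem_singleton, forall_eq_or_imp, forall_eq, W, mem_filter, mem_univ,
    true_and] at h3
  obtain ⟨p1, p2, p3, p4, p5, p6, p7, p8⟩ := h3
  have : ((r 0).val = 0 ∧ (r 1).val = 1) ∨ ((r 0).val = 0 ∧ (r 1).val = 2) ∨
    ((r 0).val = 1 ∧ (r 1).val = 2) := by omega
  rcases this with ⟨u, v⟩ | ⟨u, v⟩ | ⟨u, v⟩ <;> simp [u, v] at p1 p2 p3 p4 p5 p6 p7 p8 <;> omega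

theorem wit (n : ℕ) (x : Fin 3 × Fin n) (h1 : 3 ≤ x.2.val) (h2 : x.2.val + 4 < n) :
    Contains (insert x (W n)) P := by
  obtain ⟨i, j⟩ := x
  simp only at h1 h2
  fin_cases i
  · refine ⟨![0, 2], ![⟨0, by omega⟩, ⟨1, by omega⟩, ⟨2, by omega⟩, j, ⟨n - 4, by omega⟩],
      by decide, ?_, ?_⟩
    · simp [Fin.strictMono_iff_lt_succ, Fin.forall_fin_succ, Fin.lt_def, -Fin.val_fin_lt]; omega
    · simp [P, W]; omega
  · refine ⟨![0, 1], ![⟨2, by omega⟩, j, ⟨n - 4, by omega⟩, ⟨n - 3, by omega⟩, ⟨n - 2, by omega⟩],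
      by decide, ?_, ?_⟩
    · simp [Fin.strictMono_iff_lt_succ, Fin.forall_fin_succ, Fin.lt_def, -Fin.val_fin_lt]; omega
    · simp [P, W]; omega
  · refine ⟨![1, 2], ![⟨2, by omega⟩, j, ⟨n - 4, by omega⟩, ⟨n - 2, by omega⟩, ⟨n - 1, by omega⟩],
      by decide, ?_, ?_⟩
    · simp [Fin.strictMono_iff_lt_succ, Fin.forall_fin_succ, Fin.lt_def, -Fin.val_fin_lt]; omega
    · simp [P, W]; omega

theorem up (n : ℕ) (hn : 8 ≤ n) : sat 3 n P ≤ 21 := by
  obtain ⟨N, h1, h2⟩ := ext _ _ (av n hn)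
  refine (Nat.sInf_le (m := N.card) (by exact ⟨N, h2, rfl⟩)).trans ?_
  have : ∀ x ∈ N, x.2.val < 3 ∨ n ≤ x.2.val + 4 := fun x hx => by
    by_contra! k
    obtain ⟨r, c, a, b, d⟩ := wit n x k.1 k.2
    exact h2.1 ⟨r, c, a, b, fun p hp => insert_subset hx h1 (d p hp)⟩
  have k := card_le_card_of_injOn (s := N) (t := (univ : Finset (Fin 3)) ×ˢ range 7)
    (fun x => (x.1, if x.2.val < 3 then x.2.val else x.2.val + 7 - n))
    (fun x hx => by have := this x hx; have := x.2.2; simp; split_ifs <;> omega)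
    fun x hx y hy e => by
      have u := this x hx; have v := this y hy
      simp only [Prod.mk.injEq] at e
      refine Prod.ext e.1 (Fin.ext ?_)
      have := e.2
      split_ifs at this <;> omega
  simpa using k

theorem result : ∃ (k l k' l' m : ℕ) (P : Mat (k + 1) (l + 1)) (Q : Mat (k' + 1) (l' + 1)),
    0 < m ∧ P.Nonempty ∧ Inserted P Q ∧
      ¬ (fun n => (sat m n Q : ℝ)) =O[atTop] fun n => (sat m n P : ℝ) := by
  refine ⟨1, 4, 2, 4, 3, P, Q, by omega, by decide,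
    ⟨![0, 2], id, by decide, strictMono_id, rfl, rfl, rfl, rfl, by decide⟩, fun h => ?_⟩
  obtain ⟨C, hC, h⟩ := h.exists_pos
  obtain ⟨n, h1, h2⟩ := (h.bound.and (eventually_ge_atTop (8 + ⌈C * 21⌉₊))).exists
  have a : (n : ℝ) ≤ sat 3 n Q := by exact_mod_cast low n
  have b : (sat 3 n P : ℝ) ≤ 21 := by exact_mod_cast up n (by omega)
  have c : ((8 + ⌈C * 21⌉₊ : ℕ) : ℝ) ≤ n := by exact_mod_cast h2
  have d := Nat.le_ceil (C * 21)
  simp only [Real.norm_natCast] at h1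
  push_cast at c
  nlinarith

end Pool.Agent.Results.MP_db54ba57_co.FixedRows
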